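import Mathlib
set_option autoImplicit false
open Filter Topology
open scoped RealInnerProductSpace

namespace Pool.Agent.Lib.MP_05ecc1_an

section gen
variable {E : Type*} [NormedAddCommGroup E] [InnerProductSpace ℝ E]

/-- derivative of `z ↦ ‖z - a‖^2`. -/
lemma hd_normsq (a z : E) :
    HasFDerivAt (fun z : E => ‖z - a‖ ^ 2) (2 • innerSL ℝ (z - a)) z := by
  have h := (hasStrictFDerivAt_norm_sq (z - a)).hasFDerivAt
  have h2 : HasFDerivAt (fun z : E => z - a) (ContinuousLinearMap.id ℝ E) z :=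
    (hasFDerivAt_id z).sub_const a
  have := h.comp z h2
  rw [ContinuousLinearMap.comp_id] at this
  exact this

lemma hd_inv (a z : E) (h : z ≠ a) :
    HasFDerivAt (fun z : E => (‖z - a‖ ^ 2)⁻¹)
      ((-((‖z - a‖ ^ 2)⁻¹ ^ 2)) • (2 • innerSL ℝ (z - a))) z := by
  have hne : ‖z - a‖ ^ 2 ≠ 0 := by
    have : z - a ≠ 0 := sub_ne_zero.mpr h
    positivity
  have h1 := (hasDerivAt_inv hne).comp_hasFDerivAt z (hd_normsq a z)
  convert! h1 using 2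
  simp

variable {ι : Type*} [Fintype ι]

/-- half of the negative gradient. -/
noncomputable def Vf (a : ι → E) (z : E) : E := ∑ i, ((‖z - a i‖ ^ 2)⁻¹ ^ 2) • (z - a i)

lemma hd_f (a : ι → E) (z : E) (h : ∀ i, z ≠ a i) :
    HasFDerivAt (fun z : E => ∑ i, (1 : ℝ) / ‖z - a i‖ ^ 2) ((-2 : ℝ) • innerSL ℝ (Vf a z)) z := by
  have h1 : HasFDerivAt (fun z : E => ∑ i, (‖z - a i‖ ^ 2)⁻¹)
      (∑ i, ((-((‖z - a i‖ ^ 2)⁻¹ ^ 2)) • (2 • innerSL ℝ (z - a i)))) z :=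
    HasFDerivAt.fun_sum (fun i _ => hd_inv (a i) z (h i))
  have h2 : (∑ i, ((-((‖z - a i‖ ^ 2)⁻¹ ^ 2)) • (2 • innerSL ℝ (z - a i))))
      = (-2 : ℝ) • innerSL ℝ (Vf a z) := by
    ext v
    simp only [Vf, sum_apply, smul_apply, innerSL_apply_apply,
      sum_inner, inner_smul_left, smul_eq_mul, Finset.mul_sum, nsmul_eq_mul]
    refine Finset.sum_congr rfl fun i _ => ?_
    simp
    ring
  rw [h2] at h1
  simpa only [one_div] using h1

lemma crit_iff (a : ι → E) (z : E) (h : ∀ i, z ≠ a i) :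
    fderiv ℝ (fun z : E => ∑ i, (1 : ℝ) / ‖z - a i‖ ^ 2) z = 0 ↔ Vf a z = 0 := by
  rw [(hd_f a z h).fderiv]
  constructor
  · intro h1
    have h2 := congrArg (fun L => L (Vf a z)) h1
    simp only [smul_apply, innerSL_apply_apply, zero_apply,
      smul_eq_mul] at h2
    have h3 : ⟪Vf a z, Vf a z⟫ = 0 := by linarith
    exact inner_self_eq_zero.mp h3
  · intro h1
    rw [h1]; simp

/-- the derivative of Vf -/
noncomputable def Hf (a : ι → E) (z : E) : E →L[ℝ] E :=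
  ∑ i, (((‖z - a i‖ ^ 2)⁻¹ ^ 2) • ContinuousLinearMap.id ℝ E
    - (4 * (‖z - a i‖ ^ 2)⁻¹ ^ 3) • (innerSL ℝ (z - a i)).smulRight (z - a i))

lemma hd_V (a : ι → E) (z : E) (h : ∀ i, z ≠ a i) :
    HasFDerivAt (Vf a) (Hf a z) z := by
  unfold Hf
  refine HasFDerivAt.fun_sum (fun i _ => ?_)
  have h1 := (hd_inv (a i) z (h i)).pow 2
  have h2 : HasFDerivAt (fun z : E => z - a i) (ContinuousLinearMap.id ℝ E) z :=
    (hasFDerivAt_id z).sub_const (a i)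
  have h3 := h1.smul h2
  convert! h3 using 1
  ext v
  simp
  module

lemma isol (a : ι → E) [FiniteDimensional ℝ E] (z : E) (h : ∀ i, z ≠ a i)
    (hH : ∀ v, Hf a z v = 0 → v = 0) :
    ∃ ε > (0 : ℝ), ∀ y : E, dist y z < ε → y ≠ z → (∀ i, y ≠ a i) →
      fderiv ℝ (fun z : E => ∑ i, (1 : ℝ) / ‖z - a i‖ ^ 2) y ≠ 0 := by
  have hk : LinearMap.ker (Hf a z : E →ₗ[ℝ] E) = ⊥ := by
    rw [LinearMap.ker_eq_bot']
    exact hH
  obtain ⟨K, hK0, hK⟩ := LinearMap.exists_antilipschitzWith (Hf a z : E →ₗ[ℝ] E) hk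
  have h1 := (hd_V a z h).eventually_ne (c := 0) ⟨K, hK⟩
  rw [eventually_nhdsWithin_iff, Metric.eventually_nhds_iff] at h1
  obtain ⟨ε, hε, h2⟩ := h1
  refine ⟨ε, hε, fun y hy hyz hya => ?_⟩
  rw [ne_eq, crit_iff a y hya]
  exact h2 hy hyz

end gen


abbrev E4 := EuclideanSpace ℝ (Fin 4)

noncomputable def pa : Fin 4 → E4 :=
  ![!₂[1, 1, 1, 0], !₂[1, -1, -1, 0], !₂[-1, 1, -1, 0], !₂[-1, -1, 1, 0]]

lemma nsq (z : E4) : ‖z‖ ^ 2 = z 0 ^ 2 + z 1 ^ 2 + z 2 ^ 2 + z 3 ^ 2 := by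
  rw [EuclideanSpace.real_norm_sq_eq, Fin.sum_univ_four]

lemma inn (z w : E4) : ⟪z, w⟫ = z 0 * w 0 + z 1 * w 1 + z 2 * w 2 + z 3 * w 3 := by
  rw [PiLp.inner_apply, Fin.sum_univ_four]
  simp
  ring

/-- coordinates of `Vf` -/
lemma Vf_zero_iff (z : E4) : Vf pa z = 0 ↔ ∀ j : Fin 4,
    ∑ i, ((‖z - pa i‖ ^ 2)⁻¹ ^ 2) * ((z - pa i) j) = 0 := by
  constructor
  · intro h j
    have := congrArg (fun w : E4 => w j) h
    simpa [Vf] using this
  · intro h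
    ext j
    simpa [Vf] using h j

lemma Hf_coord (z v : E4) (h : Hf pa z v = 0) (j : Fin 4) :
    ∑ i, (((‖z - pa i‖ ^ 2)⁻¹ ^ 2) * v j
      - 4 * (‖z - pa i‖ ^ 2)⁻¹ ^ 3 * ⟪z - pa i, v⟫ * ((z - pa i) j)) = 0 := by
  have := congrArg (fun w : E4 => w j) h
  simp only [Hf, sum_apply, smul_apply, sub_apply] at this
  simp only [WithLp.ofLp_sum, Finset.sum_apply, PiLp.zero_apply] at this
  rw [← this]
  refine Finset.sum_congr rfl fun i _ => ?_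
  simp [inner_sub_left]
  ring


lemma edge_ne1 (t : ℝ) (h : (t ^ 2 + 3) ^ 2 = 12) (A B P Q : ℝ)
    (hP : P = t ^ 2 - 2 * t + 3) (hQ : Q = t ^ 2 + 2 * t + 3)
    (hA : A * P = 1) (hB : B * Q = 1) :
    2 * A ^ 2 + 2 * B ^ 2 - 16 * A ^ 3 ≠ 0 := by
  intro h0
  have key : 2 * P * Q ^ 2 + 2 * P ^ 3 - 16 * Q ^ 2 = 0 := by
    linear_combination P ^ 3 * Q ^ 2 * h0 - 2 * P * Q ^ 2 * (A * P + 1) * hA
      - 2 * P ^ 3 * (B * Q + 1) * hB + 16 * Q ^ 2 * ((A * P) ^ 2 + A * P + 1) * hA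
  subst hP hQ
  have k2 : (t ^ 2 + 3) * (t ^ 2 - 6 * t - 1) = 0 := by
    linear_combination (1 / 16) * key - (1 / 8) * (2 * (t ^ 2 + 3 - 2 * t) - 8) * h
  have k3 : t ^ 2 - 6 * t - 1 = 0 := by
    rcases mul_eq_zero.mp k2 with h1 | h1
    · nlinarith
    · exact h1
  have k4 : 33 * t + 5 = 0 := by
    linear_combination (1 / 8) * h - (1 / 8) * (t ^ 2 + 6 * t + 43) * k3
  have k5 : t = - 5 / 33 := by linarith
  rw [k5] at k3
  norm_num at k3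

lemma edge_ne3 (t : ℝ) (h : (t ^ 2 + 3) ^ 2 = 12) (A B P Q : ℝ)
    (hP : P = t ^ 2 - 2 * t + 3) (hQ : Q = t ^ 2 + 2 * t + 3)
    (hA : A * P = 1) (hB : B * Q = 1) :
    A ^ 2 + B ^ 2 - 4 * A ^ 3 * (t - 1) ^ 2 - 4 * B ^ 3 * (t + 1) ^ 2 ≠ 0 := by
  intro h0
  have key : P * Q ^ 3 + P ^ 3 * Q - 4 * (t - 1) ^ 2 * Q ^ 3 - 4 * (t + 1) ^ 2 * P ^ 3 = 0 := by
    linear_combination P ^ 3 * Q ^ 3 * h0 - P * Q ^ 3 * (A * P + 1) * hA
      - P ^ 3 * Q * (B * Q + 1) * hB + 4 * (t - 1) ^ 2 * Q ^ 3 * ((A * P) ^ 2 + A * P + 1) * hA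
      + 4 * (t + 1) ^ 2 * P ^ 3 * ((B * Q) ^ 2 + B * Q + 1) * hB
  subst hP hQ
  have k2 : (t ^ 2 + 3) * (3 * (t ^ 2 + 3) - 10) = 0 := by
    linear_combination (1 / 96) * key
      - (1 / 96) * (16 * (t ^ 2 + 3) - 144 - 6 * ((t ^ 2 + 3) ^ 2 - 12)) * h
  have k3 : 3 * (t ^ 2 + 3) - 10 = 0 := by
    rcases mul_eq_zero.mp k2 with h1 | h1
    · nlinarith
    · exact h1
  nlinarith


lemma edge_ne2 (t : ℝ) (h : (t ^ 2 + 3) ^ 2 = 12) (A B P Q : ℝ)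
    (hP : P = t ^ 2 - 2 * t + 3) (hQ : Q = t ^ 2 + 2 * t + 3)
    (hA : A * P = 1) (hB : B * Q = 1) :
    2 * A ^ 2 + 2 * B ^ 2 - 16 * B ^ 3 ≠ 0 := by
  have := edge_ne1 (-t) (by linarith [h, neg_sq t]) B A Q P (by rw [hQ]; ring) (by rw [hP]; ring)
    hB hA
  intro h0
  apply this
  linarith

lemma edge_V (t : ℝ) (h : (t ^ 2 + 3) ^ 2 = 12) (A B P Q : ℝ)
    (hP : P = t ^ 2 - 2 * t + 3) (hQ : Q = t ^ 2 + 2 * t + 3)
    (hA : A * P = 1) (hB : B * Q = 1) :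
    A ^ 2 * (t - 1) + B ^ 2 * (t + 1) = 0 := by
  have key : (t - 1) * Q ^ 2 + (t + 1) * P ^ 2 = 0 := by
    rw [hP, hQ]
    linear_combination (2 * t) * h
  linear_combination A ^ 2 * B ^ 2 * key - A ^ 2 * (t - 1) * (B * Q + 1) * hB
    - B ^ 2 * (t + 1) * (A * P + 1) * hA

lemma edge_lin (t : ℝ) (h : (t ^ 2 + 3) ^ 2 = 12) (A B P Q : ℝ)
    (hP : P = t ^ 2 - 2 * t + 3) (hQ : Q = t ^ 2 + 2 * t + 3)
    (hA : A * P = 1) (hB : B * Q = 1) (x y z w : ℝ)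
    (ex : (2 * A ^ 2 + 2 * B ^ 2) * x - 8 * A ^ 3 * (x + y) - 8 * B ^ 3 * (x - y) = 0)
    (ey : (2 * A ^ 2 + 2 * B ^ 2) * y - 8 * A ^ 3 * (x + y) + 8 * B ^ 3 * (x - y) = 0)
    (ez : (A ^ 2 + B ^ 2 - 4 * A ^ 3 * (t - 1) ^ 2 - 4 * B ^ 3 * (t + 1) ^ 2) * z = 0)
    (ew : (A ^ 2 + B ^ 2) * w = 0) : x = 0 ∧ y = 0 ∧ z = 0 ∧ w = 0 := by
  have hz := (mul_eq_zero.mp ez).resolve_left (edge_ne3 t h A B P Q hP hQ hA hB)
  have hA0 : A ≠ 0 := left_ne_zero_of_mul_eq_one hA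
  have hw := (mul_eq_zero.mp ew).resolve_left (by positivity)
  have h1 : (2 * A ^ 2 + 2 * B ^ 2 - 16 * A ^ 3) * (x + y) = 0 := by linear_combination ex + ey
  have h2 : (2 * A ^ 2 + 2 * B ^ 2 - 16 * B ^ 3) * (x - y) = 0 := by linear_combination ex - ey
  have h3 := (mul_eq_zero.mp h1).resolve_left (edge_ne1 t h A B P Q hP hQ hA hB)
  have h4 := (mul_eq_zero.mp h2).resolve_left (edge_ne2 t h A B P Q hP hQ hA hB)
  exact ⟨by linarith, by linarith, hz, hw⟩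

/-- the properties we need of a point -/
def Good (z : E4) : Prop := (∀ i, z ≠ pa i) ∧ Vf pa z = 0 ∧ ∀ v, Hf pa z v = 0 → v = 0

lemma edge_good_2 (t : ℝ) (h : (t ^ 2 + 3) ^ 2 = 12) : Good !₂[0, 0, t, 0] := by
  set z : E4 := !₂[0, 0, t, 0] with hz
  obtain ⟨P, hP⟩ : ∃ P, P = t ^ 2 - 2 * t + 3 := ⟨_, rfl⟩
  obtain ⟨Q, hQ⟩ : ∃ Q, Q = t ^ 2 + 2 * t + 3 := ⟨_, rfl⟩
  have hP0 : 0 < P := by rw [hP]; nlinarith [sq_nonneg (t - 1)]
  have hQ0 : 0 < Q := by rw [hQ]; nlinarith [sq_nonneg (t + 1)]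
  have n0 : ‖z - pa 0‖ ^ 2 = P := by rw [nsq, hP]; simp [hz, pa]; ring
  have n1 : ‖z - pa 1‖ ^ 2 = Q := by rw [nsq, hQ]; simp [hz, pa]; ring
  have n2 : ‖z - pa 2‖ ^ 2 = Q := by rw [nsq, hQ]; simp [hz, pa]; ring
  have n3 : ‖z - pa 3‖ ^ 2 = P := by rw [nsq, hP]; simp [hz, pa]; ring
  have hA : P⁻¹ * P = 1 := inv_mul_cancel₀ hP0.ne'
  have hB : Q⁻¹ * Q = 1 := inv_mul_cancel₀ hQ0.ne'
  have hn : ∀ i, z ≠ pa i := by
    intro i hi
    have : ‖z - pa i‖ ^ 2 = 0 := by rw [hi]; simp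
    fin_cases i <;> simp at this <;> simp_all
  refine ⟨hn, ?_, ?_⟩
  · rw [Vf_zero_iff]
    intro j
    rw [Fin.sum_univ_four, n0, n1, n2, n3]
    have := edge_V t h _ _ P Q hP hQ hA hB
    fin_cases j <;> simp [hz, pa]
    all_goals
      simp only [← inv_pow]
      linear_combination 2 * this
  · intro v hv
    have e := Hf_coord z v hv
    simp only [Fin.sum_univ_four, n0, n1, n2, n3, inn] at e
    have e0 := e 0
    have e1 := e 1
    have e2 := e 2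
    have e3 := e 3
    simp [hz, pa] at e0 e1 e2 e3
    simp only [← inv_pow] at e0 e1 e2 e3
    obtain ⟨h0, h1, h2, h3⟩ := edge_lin t h _ _ P Q hP hQ hA hB (v 0) (v 1) (v 2) (v 3)
      (by linear_combination e0) (by linear_combination e1) (by linear_combination (1 / 2) * e2)
      (by linear_combination (1 / 2) * e3)
    ext j
    fin_cases j
    · exact h0
    · exact h1
    · exact h2
    · exact h3

lemma edge_good_1 (t : ℝ) (h : (t ^ 2 + 3) ^ 2 = 12) : Good !₂[0, t, 0, 0] := by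
  set z : E4 := !₂[0, t, 0, 0] with hz
  obtain ⟨P, hP⟩ : ∃ P, P = t ^ 2 - 2 * t + 3 := ⟨_, rfl⟩
  obtain ⟨Q, hQ⟩ : ∃ Q, Q = t ^ 2 + 2 * t + 3 := ⟨_, rfl⟩
  have hP0 : 0 < P := by rw [hP]; nlinarith [sq_nonneg (t - 1)]
  have hQ0 : 0 < Q := by rw [hQ]; nlinarith [sq_nonneg (t + 1)]
  have n0 : ‖z - pa 0‖ ^ 2 = P := by rw [nsq, hP]; simp [hz, pa]; ring
  have n1 : ‖z - pa 1‖ ^ 2 = Q := by rw [nsq, hQ]; simp [hz, pa]; ring
  have n2 : ‖z - pa 2‖ ^ 2 = P := by rw [nsq, hP]; simp [hz, pa]; ring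
  have n3 : ‖z - pa 3‖ ^ 2 = Q := by rw [nsq, hQ]; simp [hz, pa]; ring
  have hA : P⁻¹ * P = 1 := inv_mul_cancel₀ hP0.ne'
  have hB : Q⁻¹ * Q = 1 := inv_mul_cancel₀ hQ0.ne'
  have hn : ∀ i, z ≠ pa i := by
    intro i hi
    have : ‖z - pa i‖ ^ 2 = 0 := by rw [hi]; simp
    fin_cases i <;> simp at this <;> simp_all
  refine ⟨hn, ?_, ?_⟩
  · rw [Vf_zero_iff]
    intro j
    rw [Fin.sum_univ_four, n0, n1, n2, n3]
    have := edge_V t h _ _ P Q hP hQ hA hB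
    fin_cases j <;> simp [hz, pa]
    all_goals
      simp only [← inv_pow]
      linear_combination 2 * this
  · intro v hv
    have e := Hf_coord z v hv
    simp only [Fin.sum_univ_four, n0, n1, n2, n3, inn] at e
    have e0 := e 0
    have e1 := e 1
    have e2 := e 2
    have e3 := e 3
    simp [hz, pa] at e0 e1 e2 e3
    simp only [← inv_pow] at e0 e1 e2 e3
    obtain ⟨h0, h1, h2, h3⟩ := edge_lin t h _ _ P Q hP hQ hA hB (v 0) (v 2) (v 1) (v 3)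
      (by linear_combination e0) (by linear_combination e2) (by linear_combination (1 / 2) * e1)
      (by linear_combination (1 / 2) * e3)
    ext j
    fin_cases j
    · exact h0
    · exact h2
    · exact h1
    · exact h3

lemma edge_good_0 (t : ℝ) (h : (t ^ 2 + 3) ^ 2 = 12) : Good !₂[t, 0, 0, 0] := by
  set z : E4 := !₂[t, 0, 0, 0] with hz
  obtain ⟨P, hP⟩ : ∃ P, P = t ^ 2 - 2 * t + 3 := ⟨_, rfl⟩
  obtain ⟨Q, hQ⟩ : ∃ Q, Q = t ^ 2 + 2 * t + 3 := ⟨_, rfl⟩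
  have hP0 : 0 < P := by rw [hP]; nlinarith [sq_nonneg (t - 1)]
  have hQ0 : 0 < Q := by rw [hQ]; nlinarith [sq_nonneg (t + 1)]
  have n0 : ‖z - pa 0‖ ^ 2 = P := by rw [nsq, hP]; simp [hz, pa]; ring
  have n1 : ‖z - pa 1‖ ^ 2 = P := by rw [nsq, hP]; simp [hz, pa]; ring
  have n2 : ‖z - pa 2‖ ^ 2 = Q := by rw [nsq, hQ]; simp [hz, pa]; ring
  have n3 : ‖z - pa 3‖ ^ 2 = Q := by rw [nsq, hQ]; simp [hz, pa]; ring
  have hA : P⁻¹ * P = 1 := inv_mul_cancel₀ hP0.ne'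
  have hB : Q⁻¹ * Q = 1 := inv_mul_cancel₀ hQ0.ne'
  have hn : ∀ i, z ≠ pa i := by
    intro i hi
    have : ‖z - pa i‖ ^ 2 = 0 := by rw [hi]; simp
    fin_cases i <;> simp at this <;> simp_all
  refine ⟨hn, ?_, ?_⟩
  · rw [Vf_zero_iff]
    intro j
    rw [Fin.sum_univ_four, n0, n1, n2, n3]
    have := edge_V t h _ _ P Q hP hQ hA hB
    fin_cases j <;> simp [hz, pa]
    all_goals
      simp only [← inv_pow]
      linear_combination 2 * this
  · intro v hv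
    have e := Hf_coord z v hv
    simp only [Fin.sum_univ_four, n0, n1, n2, n3, inn] at e
    have e0 := e 0
    have e1 := e 1
    have e2 := e 2
    have e3 := e 3
    simp [hz, pa] at e0 e1 e2 e3
    simp only [← inv_pow] at e0 e1 e2 e3
    obtain ⟨h0, h1, h2, h3⟩ := edge_lin t h _ _ P Q hP hQ hA hB (v 1) (v 2) (v 0) (v 3)
      (by linear_combination e1) (by linear_combination e2) (by linear_combination (1 / 2) * e0)
      (by linear_combination (1 / 2) * e3)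
    ext j
    fin_cases j
    · exact h2
    · exact h0
    · exact h1
    · exact h3


section face
variable (s : ℝ) (hs : 9 * s ^ 3 - 15 * s ^ 2 + 19 * s + 3 = 0) (hs1 : -15 / 100 < s)
  (hs2 : s < -14 / 100) (A B P Q : ℝ)
  (hP : P = 3 * (1 - s) ^ 2) (hQ : Q = 3 * s ^ 2 + 2 * s + 3)
  (hA : A * P = 1) (hB : B * Q = 1)

include hs hP hQ hA hB in
lemma face_V : A ^ 2 * (s - 1) + B ^ 2 * (3 * s + 1) = 0 := by
  have key : (s - 1) * Q ^ 2 + (3 * s + 1) * P ^ 2 = 0 := by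
    rw [hP, hQ]
    linear_combination (4 * s * (s - 1)) * hs
  linear_combination A ^ 2 * B ^ 2 * key - A ^ 2 * (s - 1) * (B * Q + 1) * hB
    - B ^ 2 * (3 * s + 1) * (A * P + 1) * hA

include hs1 hs2 hP hQ hA hB in
lemma face_ne1 : A ^ 2 + 3 * B ^ 2 - 16 * B ^ 3 ≠ 0 := by
  intro h0
  have key : Q ^ 3 + 3 * P ^ 2 * Q - 16 * P ^ 2 = 0 := by
    linear_combination P ^ 2 * Q ^ 3 * h0 - Q ^ 3 * (A * P + 1) * hA
      - 3 * P ^ 2 * Q * (B * Q + 1) * hB + 16 * P ^ 2 * ((B * Q) ^ 2 + B * Q + 1) * hB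
  have hQ1 : Q < 2.8 := by rw [hQ]; nlinarith
  have hQ2 : 0 < Q := by rw [hQ]; nlinarith
  have hP1 : 3.8 < P := by rw [hP]; nlinarith
  have hP2 : 14 < P ^ 2 := by nlinarith
  have hQ3 : Q ^ 3 < 22 := by
    have : Q ^ 2 < 7.84 := by nlinarith
    nlinarith
  nlinarith

include hs1 hs2 hP hQ hA hB in
lemma face_ne2 : A ^ 2 + 3 * B ^ 2 - 12 * A ^ 3 * (s - 1) ^ 2 - 4 * B ^ 3 * (3 * s + 1) ^ 2 ≠ 0 := by
  intro h0
  have key : - 3 * Q ^ 3 + 3 * P ^ 2 * Q - 4 * P ^ 2 * (3 * s + 1) ^ 2 = 0 := by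
    have e1 : 12 * A ^ 3 * (s - 1) ^ 2 = 4 * A ^ 2 := by
      have : 3 * (s - 1) ^ 2 = P := by rw [hP]; ring
      linear_combination 4 * A ^ 3 * this + 4 * A ^ 2 * hA
    rw [e1] at h0
    linear_combination P ^ 2 * Q ^ 3 * h0 + 3 * Q ^ 3 * (A * P + 1) * hA
      - 3 * P ^ 2 * Q * (B * Q + 1) * hB
      + 4 * P ^ 2 * (3 * s + 1) ^ 2 * ((B * Q) ^ 2 + B * Q + 1) * hB
  have hQ1 : Q < 2.8 := by rw [hQ]; nlinarith
  have hQ2 : 2.7 < Q := by rw [hQ]; nlinarith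
  have hP1 : 3.8 < P := by rw [hP]; nlinarith
  have hP2 : 14 < P ^ 2 := by nlinarith
  have hQ3 : Q ^ 3 < 22 := by
    have : Q ^ 2 < 7.84 := by nlinarith
    nlinarith
  have h3 : (3 * s + 1) ^ 2 < 0.3364 := by nlinarith
  nlinarith [mul_pos (by linarith : (0:ℝ) < P ^ 2) (by linarith : 0 < 3 * Q - 4 * (3 * s + 1) ^ 2 - 6.5)]

include hs1 hs2 hP hQ hA hB in
lemma face_lin (x y z w : ℝ)
    (ex : (A ^ 2 + 3 * B ^ 2 - 16 * B ^ 3) * x
      - (4 * A ^ 3 * (s - 1) ^ 2 + 4 * B ^ 3 * (s + 1) * (3 * s - 1)) * (x + y + z) = 0)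
    (ey : (A ^ 2 + 3 * B ^ 2 - 16 * B ^ 3) * y
      - (4 * A ^ 3 * (s - 1) ^ 2 + 4 * B ^ 3 * (s + 1) * (3 * s - 1)) * (x + y + z) = 0)
    (ez : (A ^ 2 + 3 * B ^ 2 - 16 * B ^ 3) * z
      - (4 * A ^ 3 * (s - 1) ^ 2 + 4 * B ^ 3 * (s + 1) * (3 * s - 1)) * (x + y + z) = 0)
    (ew : (A ^ 2 + 3 * B ^ 2) * w = 0) : x = 0 ∧ y = 0 ∧ z = 0 ∧ w = 0 := by
  have hA0 : A ≠ 0 := left_ne_zero_of_mul_eq_one hA
  have hw := (mul_eq_zero.mp ew).resolve_left (by positivity)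
  have h1 : (A ^ 2 + 3 * B ^ 2 - 12 * A ^ 3 * (s - 1) ^ 2 - 4 * B ^ 3 * (3 * s + 1) ^ 2)
      * (x + y + z) = 0 := by linear_combination ex + ey + ez
  have h2 := (mul_eq_zero.mp h1).resolve_left (face_ne2 s hs1 hs2 A B P Q hP hQ hA hB)
  rw [h2] at ex ey ez
  have hne := face_ne1 s hs1 hs2 A B P Q hP hQ hA hB
  refine ⟨(mul_eq_zero.mp (by linear_combination ex)).resolve_left hne,
    (mul_eq_zero.mp (by linear_combination ey)).resolve_left hne,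
    (mul_eq_zero.mp (by linear_combination ez)).resolve_left hne, hw⟩
end face

lemma face_good_0 (s : ℝ) (hs : 9 * s ^ 3 - 15 * s ^ 2 + 19 * s + 3 = 0) (hs1 : -15 / 100 < s)
    (hs2 : s < -14 / 100) : Good !₂[s, s, s, 0] := by
  set z : E4 := !₂[s, s, s, 0] with hz
  obtain ⟨P, hP⟩ : ∃ P, P = 3 * (1 - s) ^ 2 := ⟨_, rfl⟩
  obtain ⟨Q, hQ⟩ : ∃ Q, Q = 3 * s ^ 2 + 2 * s + 3 := ⟨_, rfl⟩
  have hP0 : 0 < P := by rw [hP]; nlinarith [sq_nonneg (s - 1)]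
  have hQ0 : 0 < Q := by rw [hQ]; nlinarith [sq_nonneg (s + 1)]
  have n0 : ‖z - pa 0‖ ^ 2 = P := by rw [nsq, hP]; simp [hz, pa]; ring
  have n1 : ‖z - pa 1‖ ^ 2 = Q := by rw [nsq, hQ]; simp [hz, pa]; ring
  have n2 : ‖z - pa 2‖ ^ 2 = Q := by rw [nsq, hQ]; simp [hz, pa]; ring
  have n3 : ‖z - pa 3‖ ^ 2 = Q := by rw [nsq, hQ]; simp [hz, pa]; ring
  have hA : P⁻¹ * P = 1 := inv_mul_cancel₀ hP0.ne'
  have hB : Q⁻¹ * Q = 1 := inv_mul_cancel₀ hQ0.ne'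
  have hn : ∀ i, z ≠ pa i := by
    intro i hi
    have : ‖z - pa i‖ ^ 2 = 0 := by rw [hi]; simp
    fin_cases i <;> simp at this <;> simp_all
  refine ⟨hn, ?_, ?_⟩
  · rw [Vf_zero_iff]
    intro j
    rw [Fin.sum_univ_four, n0, n1, n2, n3]
    have := face_V s hs _ _ P Q hP hQ hA hB
    fin_cases j <;> simp [hz, pa]
    · simp only [← inv_pow]
      linear_combination (1) * this
    · simp only [← inv_pow]
      linear_combination (1) * this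
    · simp only [← inv_pow]
      linear_combination (1) * this
  · intro v hv
    have e := Hf_coord z v hv
    simp only [Fin.sum_univ_four, n0, n1, n2, n3, inn] at e
    have e0 := e 0
    have e1 := e 1
    have e2 := e 2
    have e3 := e 3
    simp [hz, pa] at e0 e1 e2 e3
    simp only [← inv_pow] at e0 e1 e2 e3
    obtain ⟨h0, h1, h2, h3⟩ := face_lin s hs1 hs2 _ _ P Q hP hQ hA hB
      ((1) * v 0) ((1) * v 1) ((1) * v 2) (v 3)
      (by linear_combination (1) * e0) (by linear_combination (1) * e1)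
      (by linear_combination (1) * e2) (by linear_combination e3)
    ext j
    fin_cases j
    · show v 0 = 0
      linarith
    · show v 1 = 0
      linarith
    · show v 2 = 0
      linarith
    · exact h3

lemma face_good_1 (s : ℝ) (hs : 9 * s ^ 3 - 15 * s ^ 2 + 19 * s + 3 = 0) (hs1 : -15 / 100 < s)
    (hs2 : s < -14 / 100) : Good !₂[s, -s, -s, 0] := by
  set z : E4 := !₂[s, -s, -s, 0] with hz
  obtain ⟨P, hP⟩ : ∃ P, P = 3 * (1 - s) ^ 2 := ⟨_, rfl⟩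
  obtain ⟨Q, hQ⟩ : ∃ Q, Q = 3 * s ^ 2 + 2 * s + 3 := ⟨_, rfl⟩
  have hP0 : 0 < P := by rw [hP]; nlinarith [sq_nonneg (s - 1)]
  have hQ0 : 0 < Q := by rw [hQ]; nlinarith [sq_nonneg (s + 1)]
  have n0 : ‖z - pa 0‖ ^ 2 = Q := by rw [nsq, hQ]; simp [hz, pa]; ring
  have n1 : ‖z - pa 1‖ ^ 2 = P := by rw [nsq, hP]; simp [hz, pa]; ring
  have n2 : ‖z - pa 2‖ ^ 2 = Q := by rw [nsq, hQ]; simp [hz, pa]; ring
  have n3 : ‖z - pa 3‖ ^ 2 = Q := by rw [nsq, hQ]; simp [hz, pa]; ring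
  have hA : P⁻¹ * P = 1 := inv_mul_cancel₀ hP0.ne'
  have hB : Q⁻¹ * Q = 1 := inv_mul_cancel₀ hQ0.ne'
  have hn : ∀ i, z ≠ pa i := by
    intro i hi
    have : ‖z - pa i‖ ^ 2 = 0 := by rw [hi]; simp
    fin_cases i <;> simp at this <;> simp_all
  refine ⟨hn, ?_, ?_⟩
  · rw [Vf_zero_iff]
    intro j
    rw [Fin.sum_univ_four, n0, n1, n2, n3]
    have := face_V s hs _ _ P Q hP hQ hA hB
    fin_cases j <;> simp [hz, pa]
    · simp only [← inv_pow]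
      linear_combination (1) * this
    · simp only [← inv_pow]
      linear_combination (-1) * this
    · simp only [← inv_pow]
      linear_combination (-1) * this
  · intro v hv
    have e := Hf_coord z v hv
    simp only [Fin.sum_univ_four, n0, n1, n2, n3, inn] at e
    have e0 := e 0
    have e1 := e 1
    have e2 := e 2
    have e3 := e 3
    simp [hz, pa] at e0 e1 e2 e3
    simp only [← inv_pow] at e0 e1 e2 e3
    obtain ⟨h0, h1, h2, h3⟩ := face_lin s hs1 hs2 _ _ P Q hP hQ hA hB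
      ((1) * v 0) ((-1) * v 1) ((-1) * v 2) (v 3)
      (by linear_combination (1) * e0) (by linear_combination (-1) * e1)
      (by linear_combination (-1) * e2) (by linear_combination e3)
    ext j
    fin_cases j
    · show v 0 = 0
      linarith
    · show v 1 = 0
      linarith
    · show v 2 = 0
      linarith
    · exact h3

lemma face_good_2 (s : ℝ) (hs : 9 * s ^ 3 - 15 * s ^ 2 + 19 * s + 3 = 0) (hs1 : -15 / 100 < s)
    (hs2 : s < -14 / 100) : Good !₂[-s, s, -s, 0] := by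
  set z : E4 := !₂[-s, s, -s, 0] with hz
  obtain ⟨P, hP⟩ : ∃ P, P = 3 * (1 - s) ^ 2 := ⟨_, rfl⟩
  obtain ⟨Q, hQ⟩ : ∃ Q, Q = 3 * s ^ 2 + 2 * s + 3 := ⟨_, rfl⟩
  have hP0 : 0 < P := by rw [hP]; nlinarith [sq_nonneg (s - 1)]
  have hQ0 : 0 < Q := by rw [hQ]; nlinarith [sq_nonneg (s + 1)]
  have n0 : ‖z - pa 0‖ ^ 2 = Q := by rw [nsq, hQ]; simp [hz, pa]; ring
  have n1 : ‖z - pa 1‖ ^ 2 = Q := by rw [nsq, hQ]; simp [hz, pa]; ring
  have n2 : ‖z - pa 2‖ ^ 2 = P := by rw [nsq, hP]; simp [hz, pa]; ring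
  have n3 : ‖z - pa 3‖ ^ 2 = Q := by rw [nsq, hQ]; simp [hz, pa]; ring
  have hA : P⁻¹ * P = 1 := inv_mul_cancel₀ hP0.ne'
  have hB : Q⁻¹ * Q = 1 := inv_mul_cancel₀ hQ0.ne'
  have hn : ∀ i, z ≠ pa i := by
    intro i hi
    have : ‖z - pa i‖ ^ 2 = 0 := by rw [hi]; simp
    fin_cases i <;> simp at this <;> simp_all
  refine ⟨hn, ?_, ?_⟩
  · rw [Vf_zero_iff]
    intro j
    rw [Fin.sum_univ_four, n0, n1, n2, n3]
    have := face_V s hs _ _ P Q hP hQ hA hB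
    fin_cases j <;> simp [hz, pa]
    · simp only [← inv_pow]
      linear_combination (-1) * this
    · simp only [← inv_pow]
      linear_combination (1) * this
    · simp only [← inv_pow]
      linear_combination (-1) * this
  · intro v hv
    have e := Hf_coord z v hv
    simp only [Fin.sum_univ_four, n0, n1, n2, n3, inn] at e
    have e0 := e 0
    have e1 := e 1
    have e2 := e 2
    have e3 := e 3
    simp [hz, pa] at e0 e1 e2 e3
    simp only [← inv_pow] at e0 e1 e2 e3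
    obtain ⟨h0, h1, h2, h3⟩ := face_lin s hs1 hs2 _ _ P Q hP hQ hA hB
      ((-1) * v 0) ((1) * v 1) ((-1) * v 2) (v 3)
      (by linear_combination (-1) * e0) (by linear_combination (1) * e1)
      (by linear_combination (-1) * e2) (by linear_combination e3)
    ext j
    fin_cases j
    · show v 0 = 0
      linarith
    · show v 1 = 0
      linarith
    · show v 2 = 0
      linarith
    · exact h3

lemma face_good_3 (s : ℝ) (hs : 9 * s ^ 3 - 15 * s ^ 2 + 19 * s + 3 = 0) (hs1 : -15 / 100 < s)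
    (hs2 : s < -14 / 100) : Good !₂[-s, -s, s, 0] := by
  set z : E4 := !₂[-s, -s, s, 0] with hz
  obtain ⟨P, hP⟩ : ∃ P, P = 3 * (1 - s) ^ 2 := ⟨_, rfl⟩
  obtain ⟨Q, hQ⟩ : ∃ Q, Q = 3 * s ^ 2 + 2 * s + 3 := ⟨_, rfl⟩
  have hP0 : 0 < P := by rw [hP]; nlinarith [sq_nonneg (s - 1)]
  have hQ0 : 0 < Q := by rw [hQ]; nlinarith [sq_nonneg (s + 1)]
  have n0 : ‖z - pa 0‖ ^ 2 = Q := by rw [nsq, hQ]; simp [hz, pa]; ring
  have n1 : ‖z - pa 1‖ ^ 2 = Q := by rw [nsq, hQ]; simp [hz, pa]; ring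
  have n2 : ‖z - pa 2‖ ^ 2 = Q := by rw [nsq, hQ]; simp [hz, pa]; ring
  have n3 : ‖z - pa 3‖ ^ 2 = P := by rw [nsq, hP]; simp [hz, pa]; ring
  have hA : P⁻¹ * P = 1 := inv_mul_cancel₀ hP0.ne'
  have hB : Q⁻¹ * Q = 1 := inv_mul_cancel₀ hQ0.ne'
  have hn : ∀ i, z ≠ pa i := by
    intro i hi
    have : ‖z - pa i‖ ^ 2 = 0 := by rw [hi]; simp
    fin_cases i <;> simp at this <;> simp_all
  refine ⟨hn, ?_, ?_⟩
  · rw [Vf_zero_iff]
    intro j
    rw [Fin.sum_univ_four, n0, n1, n2, n3]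
    have := face_V s hs _ _ P Q hP hQ hA hB
    fin_cases j <;> simp [hz, pa]
    · simp only [← inv_pow]
      linear_combination (-1) * this
    · simp only [← inv_pow]
      linear_combination (-1) * this
    · simp only [← inv_pow]
      linear_combination (1) * this
  · intro v hv
    have e := Hf_coord z v hv
    simp only [Fin.sum_univ_four, n0, n1, n2, n3, inn] at e
    have e0 := e 0
    have e1 := e 1
    have e2 := e 2
    have e3 := e 3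
    simp [hz, pa] at e0 e1 e2 e3
    simp only [← inv_pow] at e0 e1 e2 e3
    obtain ⟨h0, h1, h2, h3⟩ := face_lin s hs1 hs2 _ _ P Q hP hQ hA hB
      ((-1) * v 0) ((-1) * v 1) ((1) * v 2) (v 3)
      (by linear_combination (-1) * e0) (by linear_combination (-1) * e1)
      (by linear_combination (1) * e2) (by linear_combination e3)
    ext j
    fin_cases j
    · show v 0 = 0
      linarith
    · show v 1 = 0
      linarith
    · show v 2 = 0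
      linarith
    · exact h3

lemma exists_s : ∃ s : ℝ, 9 * s ^ 3 - 15 * s ^ 2 + 19 * s + 3 = 0 ∧ -15 / 100 < s ∧
    s < -14 / 100 := by
  have hc : ContinuousOn (fun s : ℝ => 9 * s ^ 3 - 15 * s ^ 2 + 19 * s + 3)
      (Set.Icc (-15 / 100) (-14 / 100)) := by fun_prop
  have h := intermediate_value_Ioo (by norm_num : (-15 / 100 : ℝ) ≤ -14 / 100) hc
  have h0 : (0 : ℝ) ∈ Set.Ioo ((fun s : ℝ => 9 * s ^ 3 - 15 * s ^ 2 + 19 * s + 3) (-15 / 100))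
      ((fun s : ℝ => 9 * s ^ 3 - 15 * s ^ 2 + 19 * s + 3) (-14 / 100)) := by
    constructor <;> norm_num
  obtain ⟨s, hs, hs0⟩ := h h0
  exact ⟨s, hs0, hs.1, hs.2⟩

lemma exists_t : ∃ t : ℝ, (t ^ 2 + 3) ^ 2 = 12 ∧ 0 < t := by
  have h12 : (3 : ℝ) < Real.sqrt 12 := by
    rw [Real.lt_sqrt (by norm_num)]; norm_num
  refine ⟨Real.sqrt (Real.sqrt 12 - 3), ?_, Real.sqrt_pos.mpr (by linarith)⟩
  rw [Real.sq_sqrt (by linarith)]
  have := Real.sq_sqrt (show (0 : ℝ) ≤ 12 by norm_num)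
  ring_nf
  ring_nf at this
  exact this

/-- the ten critical points -/
noncomputable def pt (t s : ℝ) : Fin 10 → E4 :=
  ![!₂[t, 0, 0, 0], !₂[-t, 0, 0, 0], !₂[0, t, 0, 0], !₂[0, -t, 0, 0], !₂[0, 0, t, 0],
    !₂[0, 0, -t, 0], !₂[s, s, s, 0], !₂[s, -s, -s, 0], !₂[-s, s, -s, 0], !₂[-s, -s, s, 0]]

lemma pt_good (t s : ℝ) (h : (t ^ 2 + 3) ^ 2 = 12) (hs : 9 * s ^ 3 - 15 * s ^ 2 + 19 * s + 3 = 0)
    (hs1 : -15 / 100 < s) (hs2 : s < -14 / 100) (i : Fin 10) : Good (pt t s i) := by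
  have h' : ((-t) ^ 2 + 3) ^ 2 = 12 := by rw [neg_sq]; exact h
  fin_cases i
  · exact edge_good_0 t h
  · exact edge_good_0 (-t) h'
  · exact edge_good_1 t h
  · exact edge_good_1 (-t) h'
  · exact edge_good_2 t h
  · exact edge_good_2 (-t) h'
  · exact face_good_0 s hs hs1 hs2
  · exact face_good_1 s hs hs1 hs2
  · exact face_good_2 s hs hs1 hs2
  · exact face_good_3 s hs hs1 hs2

lemma pt_inj (t s : ℝ) (ht : 0 < t) (hs : s < 0) : Function.Injective (pt t s) := by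
  intro i j hij
  have h0 := congrArg (fun w : E4 => w 0) hij
  have h1 := congrArg (fun w : E4 => w 1) hij
  have h2 := congrArg (fun w : E4 => w 2) hij
  fin_cases i <;> fin_cases j <;> first | rfl | (exfalso; simp [pt] at h0 h1 h2 <;> linarith)

lemma pa_inj : Function.Injective pa := by
  intro i j hij
  have h0 := congrArg (fun w : E4 => w 0) hij
  have h1 := congrArg (fun w : E4 => w 1) hij
  have h2 := congrArg (fun w : E4 => w 2) hij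
  fin_cases i <;> fin_cases j <;> first | rfl | (exfalso; simp [pa] at h0 h1 h2 <;> linarith)


end Pool.Agent.Lib.MP_05ecc1_an
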